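import Pool.Agent.Lib.MP_c3d375_an.Neg.Iface

/-!
# MP_c3d375 (S06050), module MI: the precise inequality with tilt (Paper 1.6)

Geometric means with `A1 = q² + 1 + m1`, `A2 = q⁻² + 1 + m2`,
`m1 = Ca e² - iT + a e conj(H'(a)) B`, `m2 = Ca e² + iT + a e conj((1/H)'(a)) B`, `H = q̂²`.
-/

open Complex Metric Set Filter Topology ComplexConjugate Pool.Agent.Lib.MP_c3d375_an

namespace C3N.H64

/-! ### The square root near `1` -/

/-- the principal square root of the library -/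
noncomputable def rt (h : ℂ) : ℂ := Pool.Agent.Lib.MP_c3d375_an.sq h

theorem rt_sq {h : ℂ} (hh : h ≠ 0) : rt h ^ 2 = h := Pool.Agent.Lib.MP_c3d375_an.sq_sq hh

theorem rt_re_pos {h : ℂ} (hh : 0 < h.re) : 0 < (rt h).re :=
  Pool.Agent.Lib.MP_c3d375_an.sq_re_pos hh

theorem rt_diff {h : ℂ} (hh : 0 < h.re) : DifferentiableAt ℂ rt h :=
  (Pool.Agent.Lib.MP_c3d375_an.hasDerivAt_sq hh).differentiableAt

theorem one_add_re {x : ℂ} (hx : ‖x‖ ≤ 1 / 10) : 0 < (1 + x).re := by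
  have h := abs_le.1 ((Complex.abs_re_le_norm x).trans hx)
  rw [Complex.add_re, Complex.one_re]
  linarith [h.1]

theorem one_add_ne {x : ℂ} (hx : ‖x‖ ≤ 1 / 10) : 1 + x ≠ 0 := by
  intro h
  have := one_add_re hx
  rw [h] at this
  simp at this

theorem norm_sq_add_one {x : ℂ} (hx : ‖x‖ ≤ 1 / 10) : 1 ≤ ‖rt (1 + x) + 1‖ := by
  have h := rt_re_pos (one_add_re hx)
  have h1 := Complex.re_le_norm (rt (1 + x) + 1)
  rw [Complex.add_re, Complex.one_re] at h1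
  linarith

theorem sq_sub_one {x : ℂ} (hx : ‖x‖ ≤ 1 / 10) : ‖rt (1 + x) - 1‖ ≤ ‖x‖ := by
  have h0 := rt_sq (one_add_ne hx)
  have h1 : (rt (1 + x) - 1) * (rt (1 + x) + 1) = x := by linear_combination h0
  have h2 : ‖rt (1 + x) - 1‖ * ‖rt (1 + x) + 1‖ = ‖x‖ := by rw [← norm_mul, h1]
  have h3 := norm_sq_add_one hx
  nlinarith [norm_nonneg (rt (1 + x) - 1)]

theorem sq_taylor {x : ℂ} (hx : ‖x‖ ≤ 1 / 10) : ‖rt (1 + x) - 1 - x / 2‖ ≤ ‖x‖ ^ 2 / 2 := by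
  have h0 := rt_sq (one_add_ne hx)
  have h1 : (rt (1 + x) - 1 - x / 2) = -(rt (1 + x) - 1) ^ 2 / 2 := by linear_combination h0 / 2
  have h2 := sq_sub_one hx
  rw [h1, norm_div, norm_neg, norm_pow, Complex.norm_ofNat]
  have h3 : ‖rt (1 + x) - 1‖ ^ 2 ≤ ‖x‖ ^ 2 := pow_le_pow_left₀ (norm_nonneg _) h2 2
  linarith

theorem norm_sq_ge {x : ℂ} (hx : ‖x‖ ≤ 1 / 10) : 9 / 10 ≤ ‖rt (1 + x)‖ := by
  have h := sq_sub_one hx
  have h1 : ‖(1 : ℂ)‖ ≤ ‖rt (1 + x)‖ + ‖rt (1 + x) - 1‖ := by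
    have := norm_sub_le (rt (1 + x)) (rt (1 + x) - 1)
    rwa [sub_sub_cancel] at this
  rw [norm_one] at h1
  linarith

theorem sq_ne {x : ℂ} (hx : ‖x‖ ≤ 1 / 10) : rt (1 + x) ≠ 0 := by
  intro h
  have := norm_sq_ge hx
  rw [h, norm_zero] at this
  linarith

theorem sq_quot {x y : ℂ} (hx : ‖x‖ ≤ 1 / 10) (hy : ‖y‖ ≤ 1 / 10) :
    ‖rt (1 + x) * (rt (1 + y))⁻¹ - 1 - (x - y) / 2‖ ≤ 2 * (‖x‖ ^ 2 + ‖y‖ ^ 2) := by
  have hy0 := sq_ne hy
  have e1 : rt (1 + x) * (rt (1 + y))⁻¹ - 1 - (x - y) / 2 =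
      ((rt (1 + x) - 1 - x / 2) - (rt (1 + y) - 1 - y / 2) -
        (x - y) / 2 * (rt (1 + y) - 1)) / rt (1 + y) := by
    field_simp
    ring
  have h1 := sq_taylor hx
  have h2 := sq_taylor hy
  have h3 := sq_sub_one hy
  have h4 := norm_sq_ge hy
  have h5 : ‖(x - y) / 2 * (rt (1 + y) - 1)‖ ≤ (‖x‖ + ‖y‖) / 2 * ‖y‖ := by
    rw [norm_mul, norm_div, Complex.norm_ofNat]
    have := norm_sub_le x y
    gcongr
  have h6 : ‖(rt (1 + x) - 1 - x / 2) - (rt (1 + y) - 1 - y / 2) -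
      (x - y) / 2 * (rt (1 + y) - 1)‖ ≤ ‖x‖ ^ 2 / 2 + ‖y‖ ^ 2 / 2 + (‖x‖ + ‖y‖) / 2 * ‖y‖ := by
    refine (norm_sub_le _ _).trans (add_le_add ((norm_sub_le _ _).trans (add_le_add h1 h2)) h5)
  rw [e1, norm_div, div_le_iff₀ (by linarith)]
  have h7 : 2 * (‖x‖ ^ 2 + ‖y‖ ^ 2) * (9 / 10) ≤ 2 * (‖x‖ ^ 2 + ‖y‖ ^ 2) * ‖rt (1 + y)‖ := by
    gcongr
  nlinarith [sq_nonneg (‖x‖ - ‖y‖), norm_nonneg x, norm_nonneg y]

/-- a small perturbation of a number of the sector stays in the right half plane -/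
theorem kap_pos {k x y : ℂ} (hk : 0 < k.re) (hk2 : 0 < (k ^ 2).re) (hx : ‖x‖ ≤ 1 / 10)
    (hy : ‖y‖ ≤ 1 / 10) : 0 < (k * (rt (1 + x))⁻¹ * (rt (1 + y))⁻¹).re := by
  have hx0 := sq_ne hx
  have hy0 := sq_ne hy
  set w : ℂ := rt (1 + x) * rt (1 + y) with hw
  have hw0 : w ≠ 0 := mul_ne_zero hx0 hy0
  have h1 : ‖w - 1‖ ≤ 21 / 100 := by
    have e : w - 1 = (rt (1 + x) - 1) * (rt (1 + y) - 1) + (rt (1 + x) - 1) + (rt (1 + y) - 1) := by
      rw [hw]; ring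
    rw [e]
    refine (norm_add_le _ _).trans ?_
    have h2 := (sq_sub_one hx).trans hx
    have h3 := (sq_sub_one hy).trans hy
    have h4 : ‖(rt (1 + x) - 1) * (rt (1 + y) - 1)‖ ≤ 1 / 10 * (1 / 10) := by
      rw [norm_mul]; gcongr
    have h5 := norm_add_le ((rt (1 + x) - 1) * (rt (1 + y) - 1)) (rt (1 + x) - 1)
    linarith
  have hre := abs_le.1 ((Complex.abs_re_le_norm (w - 1)).trans h1)
  have him := abs_le.1 ((Complex.abs_im_le_norm (w - 1)).trans h1)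
  rw [Complex.sub_re, Complex.one_re] at hre
  rw [Complex.sub_im, Complex.one_im, sub_zero] at him
  have e2 : k * (rt (1 + x))⁻¹ * (rt (1 + y))⁻¹ = k * conj w * (((Complex.normSq w)⁻¹ : ℝ) : ℂ) := by
    rw [mul_assoc, ← mul_inv, ← hw, Complex.inv_def, mul_assoc]
  rw [e2, Complex.re_mul_ofReal]
  have hn : 0 < (Complex.normSq w)⁻¹ := inv_pos.2 (Complex.normSq_pos.2 hw0)
  refine mul_pos ?_ hn
  rw [pow_two, Complex.mul_re] at hk2
  have hk3 : |k.im| < k.re := by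
    rw [← abs_of_pos hk, ← sq_lt_sq]; nlinarith
  have hk4 := abs_lt.1 hk3
  rw [Complex.mul_re, Complex.conj_re, Complex.conj_im]
  nlinarith [hre.1, him.1, him.2, hk4.1, hk4.2]

/-- `q / (1 + q²)` stays in the sector -/
theorem sector_K {q : ℂ} (h1 : 0 < q.re) (h2 : 0 < (q ^ 2).re) :
    0 < (q * (1 + q ^ 2)⁻¹).re ∧ 0 < ((q * (1 + q ^ 2)⁻¹) ^ 2).re := by
  have h0 : (1 + q ^ 2) ≠ 0 := by
    intro h
    have := congrArg Complex.re h
    rw [Complex.add_re, Complex.one_re, Complex.zero_re] at this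
    linarith
  have hn : 0 < (Complex.normSq (1 + q ^ 2))⁻¹ := inv_pos.2 (Complex.normSq_pos.2 h0)
  rw [pow_two, Complex.mul_re] at h2
  constructor
  · rw [Complex.inv_def, ← mul_assoc, Complex.re_mul_ofReal]
    refine mul_pos ?_ hn
    have e : (q * conj (1 + q ^ 2)).re = q.re * (1 + (q.re * q.re + q.im * q.im)) := by
      simp only [pow_two, map_add, map_one, map_mul, Complex.mul_re, Complex.add_re,
        Complex.add_im, Complex.one_re, Complex.one_im, Complex.conj_re, Complex.conj_im,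
        Complex.mul_im]
      ring
    rw [e]
    have : 0 < 1 + (q.re * q.re + q.im * q.im) := by nlinarith [mul_self_nonneg q.re, mul_self_nonneg q.im]
    positivity
  · have e0 : (q * (1 + q ^ 2)⁻¹) ^ 2 = (q * conj (1 + q ^ 2)) ^ 2 *
        (((Complex.normSq (1 + q ^ 2))⁻¹ ^ 2 : ℝ) : ℂ) := by
      rw [Complex.inv_def, ← mul_assoc, mul_pow]
      push_cast
      ring
    rw [e0, Complex.re_mul_ofReal]
    refine mul_pos ?_ (by positivity)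
    have e : ((q * conj (1 + q ^ 2)) ^ 2).re =
        (q.re * q.re - q.im * q.im) * (1 + (q.re * q.re + q.im * q.im) ^ 2) +
          2 * (q.re * q.re + q.im * q.im) ^ 2 := by
      simp only [pow_two, map_add, map_one, map_mul, Complex.mul_re, Complex.add_re,
        Complex.add_im, Complex.one_re, Complex.one_im, Complex.conj_re, Complex.conj_im,
        Complex.mul_im]
      ring
    rw [e]
    have : 0 < 1 + (q.re * q.re + q.im * q.im) ^ 2 := by positivity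
    positivity

theorem norm_j_le {q : ℂ} (h2 : 0 < (q ^ 2).re) :
    ‖(1 + q ^ 2)⁻¹‖ ≤ 1 ∧ ‖q ^ 2 * (1 + q ^ 2)⁻¹‖ ≤ 1 := by
  have h1 : 1 ≤ ‖1 + q ^ 2‖ := by
    have := Complex.re_le_norm (1 + q ^ 2)
    rw [Complex.add_re, Complex.one_re] at this
    linarith
  have h3 : ‖q ^ 2‖ ≤ ‖1 + q ^ 2‖ := by
    have : ‖q ^ 2‖ ^ 2 ≤ ‖1 + q ^ 2‖ ^ 2 := by
      rw [← Complex.normSq_eq_norm_sq, ← Complex.normSq_eq_norm_sq, Complex.normSq_apply,
        Complex.normSq_apply, Complex.add_re, Complex.add_im, Complex.one_re, Complex.one_im]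
      nlinarith
    exact (pow_le_pow_iff_left₀ (norm_nonneg _) (norm_nonneg _) two_ne_zero).1 this
  constructor
  · rw [norm_inv]
    exact inv_le_one_of_one_le₀ h1
  · rw [norm_mul, norm_inv, ← div_eq_mul_inv]
    exact div_le_one_of_le₀ h3 (norm_nonneg _)

/-! ### Square roots in `Hol r` -/

theorem exists_sqrt {r : ℝ} (x : Hol r) (hx : ∀ z ∈ ball (0 : ℂ) r, ‖fn x z‖ ≤ 1 / 10) :
    ∃ s si : Hol r, s ^ 2 = 1 + x ∧ s * si = 1 ∧
      ∀ z ∈ ball (0 : ℂ) r, fn s z = rt (1 + fn x z) ∧ fn si z = (rt (1 + fn x z))⁻¹ := by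
  have hd : DifferentiableOn ℂ (fun z => rt (1 + fn x z)) (ball 0 r) := by
    intro z hz
    have h1 := ((fn_differentiableOn x).differentiableAt (isOpen_ball.mem_nhds hz)).const_add 1
    exact ((rt_diff (one_add_re (hx z hz))).comp z h1).differentiableWithinAt
  have hdi : DifferentiableOn ℂ (fun z => (rt (1 + fn x z))⁻¹) (ball 0 r) :=
    hd.inv fun z hz => sq_ne (hx z hz)
  refine ⟨hol r (fun z => rt (1 + fn x z)), hol r (fun z => (rt (1 + fn x z))⁻¹), ?_, ?_, ?_⟩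
  · refine hol_ext fun z hz => ?_
    rw [fn_pow _ _ hz, fn_add, fn_one hz, fn_hol hd hz]
    exact rt_sq (one_add_ne (hx z hz))
  · refine hol_ext fun z hz => ?_
    rw [fn_mul, fn_one hz, fn_hol hd hz, fn_hol hdi hz]
    exact mul_inv_cancel₀ (sq_ne (hx z hz))
  · intro z hz
    exact ⟨fn_hol hd hz, fn_hol hdi hz⟩

theorem fn_hsq {r : ℝ} (p : Hol r) : fn (p ^ 2) = fun z => fn p z ^ 2 := by
  funext z
  rw [pow_two, fn_mul, pow_two]

/-- the algebra of the geometric mean -/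
theorem gm_alg {r : ℝ} {p pi j m1 m2 s1 s1i s2 s2i : Hol r} (hj : j * (1 + p ^ 2) = 1)
    (hp : p * pi = 1) (h1 : s1 ^ 2 = 1 + m1 * j) (h1i : s1 * s1i = 1)
    (h2 : s2 ^ 2 = 1 + m2 * (p ^ 2 * j)) (h2i : s2 * s2i = 1) :
    (p * s1 * s2i) ^ 2 * (pi ^ 2 + 1 + m2) = p ^ 2 + 1 + m1 ∧
      (pi ^ 2 + 1 + m2) * (p * s1 * s2i) * (p * j * s1i * s2i) = 1 := by
  have e1 : (1 + pi ^ 2) * (p ^ 2 * j) = 1 := by
    linear_combination hj + j * (p * pi + 1) * hp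
  have e2 : pi ^ 2 + 1 + m2 = (1 + pi ^ 2) * s2 ^ 2 := by
    rw [h2]; linear_combination -m2 * e1
  have e3 : p ^ 2 * (1 + pi ^ 2) = 1 + p ^ 2 := by linear_combination (p * pi + 1) * hp
  have e4 : s1 ^ 2 * (1 + p ^ 2) = p ^ 2 + 1 + m1 := by
    rw [h1]; linear_combination m1 * hj
  constructor
  · rw [e2]
    calc (p * s1 * s2i) ^ 2 * ((1 + pi ^ 2) * s2 ^ 2) =
        s1 ^ 2 * (p ^ 2 * (1 + pi ^ 2)) * (s2 * s2i) ^ 2 := by ring
      _ = p ^ 2 + 1 + m1 := by rw [h2i, e3, one_pow, mul_one, e4]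
  · rw [e2]
    calc (1 + pi ^ 2) * s2 ^ 2 * (p * s1 * s2i) * (p * j * s1i * s2i) =
        (p ^ 2 * (1 + pi ^ 2)) * j * (s2 * s2i) ^ 2 * (s1 * s1i) := by ring
      _ = 1 := by rw [h2i, h1i, e3, one_pow, mul_one, mul_one, mul_comm, hj]

/-- the derivative of `1/H` -/
theorem deriv_qi {r : ℝ} {p pi : Hol r} {a : ℂ} (ha : a ∈ ball (0 : ℂ) r)
    (hp : ∀ z ∈ ball (0 : ℂ) r, fn p z ≠ 0) (hpi : ∀ z ∈ ball (0 : ℂ) r, fn pi z = (fn p z)⁻¹) :
    deriv (fn (pi ^ 2)) a = -deriv (fun z => fn p z ^ 2) a * ((fn p a ^ 2)⁻¹) ^ 2 := by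
  have h1 : fn (pi ^ 2) =ᶠ[𝓝 a] fun z => (fn p z ^ 2)⁻¹ := by
    filter_upwards [isOpen_ball.mem_nhds ha] with z hz
    rw [fn_hsq]
    change fn pi z ^ 2 = _
    rw [hpi z hz, inv_pow]
  rw [h1.deriv_eq]
  have h2 : DifferentiableAt ℂ (fun z => fn p z ^ 2) a :=
    ((fn_differentiableOn p).differentiableAt (isOpen_ball.mem_nhds ha)).pow 2
  have h3 : fn p a ^ 2 ≠ 0 := pow_ne_zero 2 (hp a ha)
  change deriv (fun z => fn p z ^ 2)⁻¹ a = _
  rw [(h2.hasDerivAt.inv h3).deriv]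
  rw [div_eq_mul_inv, inv_pow]

/-- accretivity of `h + 1 + m` from `pos` -/
theorem acc_of_pos {a e r : ℝ} {H : Type} [NormedAddCommGroup H] [InnerProductSpace ℂ H]
    [CompleteSpace H] (S : Sys a e r H) (h : Hol r)
    (hh : ∀ z ∈ closedBall (0 : ℂ) 1, 0 ≤ (fn h z).re) (h0 : (fn h 0).re ≤ 1) (T : ℝ) (x : H) :
    0 ≤ (inner ℂ x (S.Φ (h + 1 + (algebraMap ℂ (Hol r) ((Ca a * e ^ 2 : ℝ) + T * I) +
      ((a : ℂ) * e * conj (deriv (fn h) a)) • Bf a r)) x)).re := by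
  have h1 := S.pos h hh x
  unfold cform at h1
  have hC : 0 ≤ Ca a * e ^ 2 := by
    have : 0 ≤ Ca a := by
      unfold Ca
      have : (0 : ℝ) ≤ (1 - a) ^ 6 := by
        rw [show (6 : ℕ) = 2 * 3 by norm_num, pow_mul]
        positivity
      positivity
    positivity
  have h2 : (inner ℂ x (S.Φ (h + 1 + (algebraMap ℂ (Hol r) ((Ca a * e ^ 2 : ℝ) + T * I) +
      ((a : ℂ) * e * conj (deriv (fn h) a)) • Bf a r)) x)).re =
      (inner ℂ x (S.Φ h x)).re + (1 + Ca a * e ^ 2) * ‖x‖ ^ 2 +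
        ((a : ℂ) * e * conj (deriv (fn h) a) * inner ℂ x (S.Φ (Bf a r) x)).re := by
    rw [map_add, map_add, map_add, map_one, AlgHom.commutes, map_smul, Algebra.algebraMap_eq_smul_one]
    simp only [add_apply, smul_apply,
      one_apply_eq_self, inner_add_right, inner_smul_right, Complex.add_re]
    rw [inner_self_eq_norm_sq_to_K]
    have e3 : (((Ca a * e ^ 2 : ℝ) + T * I) * ((‖x‖ : ℂ)) ^ 2).re = Ca a * e ^ 2 * ‖x‖ ^ 2 := by
      rw [← Complex.ofReal_pow, Complex.re_mul_ofReal, Complex.add_re, Complex.ofReal_re,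
        Complex.re_ofReal_mul, Complex.I_re, mul_zero, add_zero]
    have e4 : (((‖x‖ : ℂ)) ^ 2).re = ‖x‖ ^ 2 := by
      rw [← Complex.ofReal_pow, Complex.ofReal_re]
    simp only [Complex.coe_algebraMap] at *
    rw [e3, e4]
    ring
  rw [h2]
  have h3 : (fn h 0).re * (1 + Ca a * e ^ 2) * ‖x‖ ^ 2 ≤ 1 * (1 + Ca a * e ^ 2) * ‖x‖ ^ 2 := by
    gcongr
  linarith

/-- the scalar estimate of the remainder -/
theorem scalar_est {p j J B k D2 nv x y : ℂ} {e T c C : ℝ} (hj : j = (1 + p ^ 2)⁻¹)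
    (hJ : J = p ^ 2 * (1 + p ^ 2)⁻¹) (hp : 0 < (p ^ 2).re)
    (hx : x = ((C * e ^ 2 : ℝ) + (-T : ℝ) * I + e * k * B) * j)
    (hy : y = ((C * e ^ 2 : ℝ) + T * I + e * D2 * B) * J)
    (hD2 : D2 = -k * nv ^ 2) (hC : 0 ≤ C) (hc : 0 ≤ c) (he : 0 < e)
    (hxn : ‖x‖ ≤ |T| + c * e) (hyn : ‖y‖ ≤ |T| + c * e) (hx10 : |T| + c * e ≤ 1 / 10) :
    ‖rt (1 + x) * (rt (1 + y))⁻¹ - 1 + T / 2 * I - e * (k / 2 * (B * (j + nv ^ 2 * J)))‖ ≤
      4 * T ^ 2 + (8 * c + 4 * c ^ 2 + C) * (e ^ 2 + e * |T|) := by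
  have h0 : (1 + p ^ 2) ≠ 0 := by
    intro h
    have := congrArg Complex.re h
    rw [Complex.add_re, Complex.one_re, Complex.zero_re] at this
    linarith
  have hjJ : j + J = 1 := by
    rw [hj, hJ]; field_simp
  have e1 : rt (1 + x) * (rt (1 + y))⁻¹ - 1 + T / 2 * I - e * (k / 2 * (B * (j + nv ^ 2 * J))) =
      (rt (1 + x) * (rt (1 + y))⁻¹ - 1 - (x - y) / 2) + ((C * e ^ 2 : ℝ) : ℂ) * ((j - J) / 2) := by
    rw [hx, hy, hD2]
    push_cast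
    linear_combination (-(T : ℂ) / 2 * I) * hjJ
  obtain ⟨n1, n2⟩ := norm_j_le hp
  rw [← hj] at n1
  rw [← hJ] at n2
  have h1 := sq_quot (hxn.trans hx10) (hyn.trans hx10)
  have h2 : ‖((C * e ^ 2 : ℝ) : ℂ) * ((j - J) / 2)‖ ≤ C * e ^ 2 := by
    rw [norm_mul, Complex.norm_real, Real.norm_of_nonneg (by positivity), norm_div,
      Complex.norm_ofNat]
    have := norm_sub_le j J
    have h3 : ‖j - J‖ / 2 ≤ 1 := by linarith
    have h4 : 0 ≤ C * e ^ 2 := by positivity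
    nlinarith
  rw [e1]
  refine (norm_add_le _ _).trans ?_
  have h3 : ‖x‖ ^ 2 ≤ (|T| + c * e) ^ 2 := pow_le_pow_left₀ (norm_nonneg _) hxn 2
  have h4 : ‖y‖ ^ 2 ≤ (|T| + c * e) ^ 2 := pow_le_pow_left₀ (norm_nonneg _) hyn 2
  have h5 : 0 ≤ |T| := abs_nonneg T
  have h6 : |T| ^ 2 = T ^ 2 := sq_abs T
  have h7 : 0 ≤ c * e ^ 2 := by positivity
  have h8 : 0 ≤ c ^ 2 * (e * |T|) := by positivity
  have h9 : 0 ≤ C * (e * |T|) := by positivity
  nlinarith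

theorem mi_st (hP1 : P1Statement) (hGM : GMStatement) (hNU : NUStatement) : MIStatement := by
  refine ⟨44, by norm_num, 1 / 20, by norm_num, ?_⟩
  intro a ha ha1
  obtain ⟨e1, he1, hP⟩ := hP1 a ha ha1
  have h1a : 0 < 1 - a := by linarith
  have hCa : 0 < Ca a := by unfold Ca; positivity
  obtain ⟨c, hc⟩ : ∃ c : ℝ, c = Ca a + 12 / (1 - a) ^ 3 := ⟨_, rfl⟩
  have hc0 : 0 < c := by rw [hc]; positivity
  refine ⟨11 * (8 * c + 4 * c ^ 2 + Ca a), by positivity, min (min e1 1) (1 / (20 * c)),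
    by positivity, ?_⟩
  intro e he hemin H _ _ _ r hr hr1 S q hq T hT x
  have hee1 : e < e1 := hemin.trans_le ((min_le_left _ _).trans (min_le_left _ _))
  have hee2 : e < 1 := hemin.trans_le ((min_le_left _ _).trans (min_le_right _ _))
  have hee3 : e < 1 / (20 * c) := hemin.trans_le (min_le_right _ _)
  have hce : c * e ≤ 1 / 20 := by
    rw [lt_div_iff₀ (by positivity)] at hee3
    linarith
  have hx10 : |T| + c * e ≤ 1 / 10 := by linarith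
  obtain ⟨hrho, -, hqh, hq0, hnu, hnu1, hnu2, hkap1, hkap2, -, hz⟩ := hNU a ha ha1 r hr hr1 q hq
  have hcb : closedBall (0 : ℂ) 1 ⊆ ball 0 r := closedBall_subset_ball hr
  have h0b : (0 : ℂ) ∈ ball (0 : ℂ) r := mem_ball_self (by linarith)
  have hab : (a : ℂ) ∈ ball (0 : ℂ) r := by
    rw [mem_ball_zero_iff, Complex.norm_real, Real.norm_of_nonneg (by linarith)]
    linarith
  -- the values of `q̂`
  have hqre : ∀ z ∈ ball (0 : ℂ) r, 0 < (fn (qh q) z).re := by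
    intro z hzb
    rw [hqh z, ← Complex.ofReal_inv, Complex.re_ofReal_mul]
    exact mul_pos (inv_pos.2 hrho) (hq.re_pos z hzb)
  have hqsq : ∀ z ∈ ball (0 : ℂ) r, 0 < ((fn (qh q) z) ^ 2).re := by
    intro z hzb
    rw [hqh z, mul_pow, ← Complex.ofReal_inv, ← Complex.ofReal_pow, Complex.re_ofReal_mul]
    exact mul_pos (pow_pos (inv_pos.2 hrho) 2) (hq.re_sq_pos z hzb)
  have hqne : ∀ z ∈ ball (0 : ℂ) r, fn (qh q) z ≠ 0 := by
    intro z hzb h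
    have := hqre z hzb
    rw [h] at this
    simp at this
  have hqi : ∀ z ∈ ball (0 : ℂ) r, fn (qi q) z = (fn (qh q) z)⁻¹ := fun z hzb => (hz z hzb).1
  have hqj : ∀ z ∈ ball (0 : ℂ) r, fn (jj q) z = (1 + (fn (qh q) z) ^ 2)⁻¹ :=
    fun z hzb => (hz z hzb).2.1
  have hB : ∀ z ∈ ball (0 : ℂ) r, ‖fn (Bf a r) z‖ ≤ 2 / (1 - a) :=
    fun z hzb => (hz z hzb).2.2.2.1
  -- notation
  set p : Hol r := qh q with hp
  set pi : Hol r := qi q with hpi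
  set j : Hol r := jj q with hjdef
  set B : Hol r := Bf a r with hBdef
  have hne1 : ∀ z ∈ ball (0 : ℂ) r, (1 + (fn p z) ^ 2) ≠ 0 := by
    intro z hzb h
    have := congrArg Complex.re h
    rw [Complex.add_re, Complex.one_re, Complex.zero_re] at this
    linarith [hqsq z hzb]
  have hjeq : j * (1 + p ^ 2) = 1 := by
    refine hol_ext fun z hzb => ?_
    rw [fn_mul, fn_add, fn_one hzb, fn_pow _ _ hzb, hqj z hzb, inv_mul_cancel₀ (hne1 z hzb)]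
  have hpp : p * pi = 1 := by
    refine hol_ext fun z hzb => ?_
    rw [fn_mul, fn_one hzb, hqi z hzb, mul_inv_cancel₀ (hqne z hzb)]
  obtain ⟨D1, hD1⟩ : ∃ D1 : ℂ, D1 = (a : ℂ) * conj (deriv (fn (p ^ 2)) a) := ⟨_, rfl⟩
  obtain ⟨D2, hD2⟩ : ∃ D2 : ℂ, D2 = (a : ℂ) * conj (deriv (fn (pi ^ 2)) a) := ⟨_, rfl⟩
  have hk : D1 = kap q a := by
    rw [hD1, kap, fn_hsq]
  have hD2' : D2 = -D1 * ((nu q a)⁻¹) ^ 2 := by
    rw [hD2, deriv_qi hab hqne hqi, hD1, fn_hsq, nu]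
    simp only [map_mul, map_neg, map_pow, map_inv₀]
    ring
  have hb1 : ‖D1‖ ≤ 6 / (1 - a) ^ 2 := by
    rw [hk]
    refine hkap1.trans ?_
    have h1 : (nu q a).re ≤ 3 / (1 - a) := (Complex.re_le_norm _).trans hnu1
    have h2 : (1 - a) ≤ 1 - a ^ 2 := by nlinarith
    calc 2 * a * (nu q a).re / (1 - a ^ 2) ≤ 2 * 1 * (3 / (1 - a)) / (1 - a) := by
          gcongr
      _ = 6 / (1 - a) ^ 2 := by field_simp; norm_num
  have hb2 : ‖D2‖ ≤ 6 / (1 - a) ^ 2 := by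
    rw [hD2', hk, neg_mul, norm_neg]
    refine hkap2.trans ?_
    have h1 : ((nu q a)⁻¹).re ≤ 3 / (1 - a) := (Complex.re_le_norm _).trans hnu2
    have h2 : (1 - a) ≤ 1 - a ^ 2 := by nlinarith
    calc 2 * a * ((nu q a)⁻¹).re / (1 - a ^ 2) ≤ 2 * 1 * (3 / (1 - a)) / (1 - a) := by
          gcongr
          · rw [Complex.inv_re]
            exact div_nonneg hnu.le (Complex.normSq_nonneg _)
      _ = 6 / (1 - a) ^ 2 := by field_simp; norm_num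
  -- the perturbations
  set m1 : Hol r := algebraMap ℂ (Hol r) ((Ca a * e ^ 2 : ℝ) + (-T : ℝ) * I) +
    ((a : ℂ) * e * conj (deriv (fn (p ^ 2)) a)) • B with hm1
  set m2 : Hol r := algebraMap ℂ (Hol r) ((Ca a * e ^ 2 : ℝ) + T * I) +
    ((a : ℂ) * e * conj (deriv (fn (pi ^ 2)) a)) • B with hm2
  have fm1 : ∀ z ∈ ball (0 : ℂ) r, fn m1 z = (Ca a * e ^ 2 : ℝ) + (-T : ℝ) * I + e * D1 * fn B z := by
    intro z hzb
    rw [hm1, fn_add, fn_algebraMap _ hzb, fn_smul, hD1]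
    ring
  have fm2 : ∀ z ∈ ball (0 : ℂ) r, fn m2 z = (Ca a * e ^ 2 : ℝ) + T * I + e * D2 * fn B z := by
    intro z hzb
    rw [hm2, fn_add, fn_algebraMap _ hzb, fn_smul, hD2]
    ring
  have hbound : ∀ (t : ℝ) (D b : ℂ), |t| = |T| → ‖D‖ ≤ 6 / (1 - a) ^ 2 → ‖b‖ ≤ 2 / (1 - a) →
      ‖((Ca a * e ^ 2 : ℝ) : ℂ) + t * I + e * D * b‖ ≤ |T| + c * e := by
    intro t D b ht hD hb
    have h1 : ‖((Ca a * e ^ 2 : ℝ) : ℂ)‖ ≤ Ca a * e := by
      rw [Complex.norm_real, Real.norm_of_nonneg (by positivity)]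
      have : e ^ 2 ≤ e := by nlinarith
      gcongr
    have h2 : ‖(t : ℂ) * I‖ = |T| := by
      rw [norm_mul, Complex.norm_I, mul_one, Complex.norm_real, Real.norm_eq_abs, ht]
    have h3 : ‖(e : ℂ) * D * b‖ ≤ e * (6 / (1 - a) ^ 2) * (2 / (1 - a)) := by
      rw [norm_mul, norm_mul, Complex.norm_real, Real.norm_of_nonneg he.le]
      gcongr
    have h4 : e * (6 / (1 - a) ^ 2) * (2 / (1 - a)) = 12 / (1 - a) ^ 3 * e := by
      field_simp; norm_num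
    calc ‖((Ca a * e ^ 2 : ℝ) : ℂ) + t * I + e * D * b‖ ≤
        Ca a * e + |T| + 12 / (1 - a) ^ 3 * e := by
          refine (norm_add_le _ _).trans (add_le_add ((norm_add_le _ _).trans
            (add_le_add h1 h2.le)) (h3.trans h4.le))
      _ = |T| + c * e := by rw [hc]; ring
  have nm1 : ∀ z ∈ ball (0 : ℂ) r, ‖fn m1 z‖ ≤ |T| + c * e := by
    intro z hzb
    rw [fm1 z hzb]
    exact hbound (-T) D1 _ (abs_neg T) hb1 (hB z hzb)
  have nm2 : ∀ z ∈ ball (0 : ℂ) r, ‖fn m2 z‖ ≤ |T| + c * e := by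
    intro z hzb
    rw [fm2 z hzb]
    exact hbound T D2 _ rfl hb2 (hB z hzb)
  have nx : ∀ z ∈ ball (0 : ℂ) r, ‖fn (m1 * j) z‖ ≤ |T| + c * e := by
    intro z hzb
    rw [fn_mul, norm_mul, hqj z hzb]
    have h1 := (norm_j_le (hqsq z hzb)).1
    calc ‖fn m1 z‖ * ‖(1 + fn p z ^ 2)⁻¹‖ ≤ ‖fn m1 z‖ * 1 := by gcongr
      _ ≤ |T| + c * e := by rw [mul_one]; exact nm1 z hzb
  have ny : ∀ z ∈ ball (0 : ℂ) r, ‖fn (m2 * (p ^ 2 * j)) z‖ ≤ |T| + c * e := by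
    intro z hzb
    rw [fn_mul, fn_mul, norm_mul, hqj z hzb, fn_pow _ _ hzb]
    have h1 := (norm_j_le (hqsq z hzb)).2
    calc ‖fn m2 z‖ * ‖fn p z ^ 2 * (1 + fn p z ^ 2)⁻¹‖ ≤ ‖fn m2 z‖ * 1 := by gcongr
      _ ≤ |T| + c * e := by rw [mul_one]; exact nm2 z hzb
  obtain ⟨s1, s1i, hs1, hs1i, hs1v⟩ := exists_sqrt (m1 * j) fun z hzb => (nx z hzb).trans hx10
  obtain ⟨s2, s2i, hs2, hs2i, hs2v⟩ :=
    exists_sqrt (m2 * (p ^ 2 * j)) fun z hzb => (ny z hzb).trans hx10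
  obtain ⟨al1, al2⟩ := gm_alg hjeq hpp hs1 hs1i hs2 hs2i
  -- accretivity
  have acc1 : ∀ y : H, 0 ≤ (inner ℂ y (S.Φ (p ^ 2 + 1 + m1) y)).re := by
    intro y
    refine acc_of_pos S (p ^ 2) (fun z hzc => ?_) ?_ (-T) y
    · rw [fn_hsq]; exact (hqsq z (hcb hzc)).le
    · refine (Complex.re_le_norm _).trans ?_
      rw [fn_hsq, norm_pow, hq0, one_pow]
  have acc2 : ∀ y : H, 0 ≤ (inner ℂ y (S.Φ (pi ^ 2 + 1 + m2) y)).re := by
    intro y
    refine acc_of_pos S (pi ^ 2) (fun z hzc => ?_) ?_ T y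
    · rw [fn_hsq]
      change 0 ≤ (fn pi z ^ 2).re
      rw [hqi z (hcb hzc), inv_pow, Complex.inv_re]
      exact div_nonneg (hqsq z (hcb hzc)).le (Complex.normSq_nonneg _)
    · refine (Complex.re_le_norm _).trans ?_
      rw [fn_hsq]
      change ‖fn pi 0 ^ 2‖ ≤ 1
      rw [hqi 0 h0b, norm_pow, norm_inv, hq0, inv_one, one_pow]
  -- geometric mean
  have hacc := hGM H r hr S.Φ S.bdd (p ^ 2 + 1 + m1) (pi ^ 2 + 1 + m2) (p * s1 * s2i)
    (p * j * s1i * s2i) al1 al2 (fun z hzc => by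
      have hzb := hcb hzc
      rw [fn_mul, fn_mul, fn_mul, (hs1v z hzb).2, (hs2v z hzb).2, hqj z hzb]
      obtain ⟨k1, k2⟩ := sector_K (hqre z hzb) (hqsq z hzb)
      exact kap_pos k1 k2 ((nx z hzb).trans hx10) ((ny z hzb).trans hx10)) acc1 acc2 x
  -- the remainder
  obtain ⟨R, hR⟩ : ∃ R : Hol r, R = s1 * s2i - 1 + algebraMap ℂ (Hol r) (T / 2 * I) -
    (e : ℂ) • Ff q a := ⟨_, rfl⟩
  have hRb : ∀ z ∈ closedBall (0 : ℂ) 1, ‖fn R z‖ ≤
      4 * T ^ 2 + (8 * c + 4 * c ^ 2 + Ca a) * (e ^ 2 + e * |T|) := by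
    intro z hzc
    have hzb := hcb hzc
    have hF : fn (Ff q a) z = kap q a / 2 * (fn B z * (fn j z + ((nu q a)⁻¹) ^ 2 *
        (fn p z ^ 2 * fn j z))) := by
      unfold Ff
      rw [fn_smul, fn_mul, fn_add, fn_smul, fn_mul, fn_pow _ _ hzb]
    have h1 : fn R z = rt (1 + fn (m1 * j) z) * (rt (1 + fn (m2 * (p ^ 2 * j)) z))⁻¹ - 1 +
        T / 2 * I - e * (D1 / 2 * (fn B z * (fn j z + ((nu q a)⁻¹) ^ 2 *
          (fn p z ^ 2 * fn j z)))) := by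
      rw [hR, fn_sub, fn_add, fn_sub, fn_mul, fn_one hzb, fn_algebraMap _ hzb, fn_smul,
        (hs1v z hzb).1, (hs2v z hzb).2, hF, hk]
    rw [h1]
    refine scalar_est (p := fn p z) (D2 := D2) (hqj z hzb) (by rw [hqj z hzb]) (hqsq z hzb) ?_ ?_
      hD2' hCa.le hc0.le he (nx z hzb) (ny z hzb) hx10
    · rw [fn_mul, fm1 z hzb]
    · rw [fn_mul, fn_mul, fm2 z hzb, fn_pow _ _ hzb]
  have hRn := hP e he hee1 H r hr hr1 S R _ hRb
  have hsplit : p * s1 * s2i = (1 - T / 2 * I : ℂ) • p + (e : ℂ) • (Ff q a * p) + R * p := by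
    refine hol_ext fun z hzb => ?_
    rw [hR]
    simp only [fn_add, fn_sub, fn_mul, fn_smul, fn_one hzb, fn_algebraMap _ hzb]
    ring
  rw [hsplit, map_add, map_add, map_smul, map_smul, map_mul S.Φ R p] at hacc
  simp only [add_apply, smul_apply, inner_add_right, inner_smul_right, Complex.add_re,
    Complex.re_ofReal_mul] at hacc
  change 0 ≤ _ + _ + (inner ℂ x (S.Φ R (S.Φ p x))).re at hacc
  have hfin : (inner ℂ x (S.Φ R (S.Φ p x))).re ≤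
      11 * (4 * T ^ 2 + (8 * c + 4 * c ^ 2 + Ca a) * (e ^ 2 + e * |T|)) * ‖S.Φ p x‖ * ‖x‖ := by
    refine (Complex.re_le_norm _).trans ((norm_inner_le_norm _ _).trans ?_)
    have h2 : ‖S.Φ R (S.Φ p x)‖ ≤
        11 * (4 * T ^ 2 + (8 * c + 4 * c ^ 2 + Ca a) * (e ^ 2 + e * |T|)) * ‖S.Φ p x‖ := by
      refine ((S.Φ R).le_opNorm _).trans ?_
      gcongr
    rw [mul_comm]
    gcongr
  have e9 : (44 * T ^ 2 + 11 * (8 * c + 4 * c ^ 2 + Ca a) * (e ^ 2 + e * |T|)) * ‖S.Φ p x‖ * ‖x‖ =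
      11 * (4 * T ^ 2 + (8 * c + 4 * c ^ 2 + Ca a) * (e ^ 2 + e * |T|)) * ‖S.Φ p x‖ * ‖x‖ := by
    ring
  rw [e9]
  linarith

end C3N.H64
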